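import Pool.Agent.Y19.QT.Fin2
import Pool.Agent.Y19.QT.Fams

/-!
# The gap between the rank and the order of vanishing in families of quadratic twists

`E_d : y² = x³ + a d² x + b d³`, `d` squarefree (positive or negative), are the quadratic twists of
`E : y² = x³ + a x + b`. The conjecture of Birch and Swinnerton-Dyer says that the gap
`|rank E_d(ℚ) - ord_{s=1} L(E_d, s)|` is zero. For all `E` with `j`-invariant `0` or `1728`, for all
quadratic twists of `X₀(11)` and `X₀(14)`, without any hypothesis, and for every `E` whose quadratic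
twists are modular, we prove:

* `L(E_d, s)` is entire and not identically zero, `E_d(ℚ)` is finitely generated, and
  `∑_{|d| ≤ X} exp (c (rank + ord)) ≤ C X (log X)^A` for some `c > 0`;
* for every `B` the gap is at most `K log log X` for all `|d| ≤ X` except `O(X / (log X)^B)`;
* for every `k`, `B` and for every set `S` of squarefree `d`, `|d| ≤ X`, the sum over `S` of the `k`-th
  powers of the gap is `O((|S| + X / (log X)^B) (1 + log log X)^k)`; in particular
  all the moments of the gap over the whole family are `O((log log X)^k)`.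

The known density theorems lose a factor `X^ε` and give only `o(log X)` for the average. Everything is
proved in the imported files (Project QT of the library: a zero density theorem for the twists near `s = 1`
with the loss of a power of `log X` only, by a large sieve inequality, and a descent for the ranks).
-/

set_option autoImplicit false

open scoped Classical

namespace Pool.Agent.Results.MP_696deb_nt.GapInTwistFamilies

open Pool.Agent.Y19.QT (IsLFun Fam TwistsModular sqf mem_sqf TwistLaw rkord)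

/-- the rank of the group of rational points of `y² = x³ + a x + b` -/
noncomputable def rank (a b : ℤ) : ℕ :=
  Module.finrank ℤ
    (WeierstrassCurve.Affine.Point
      (WeierstrassCurve.toAffine
        ({ a₁ := 0, a₂ := 0, a₃ := 0, a₄ := (a : ℚ), a₆ := (b : ℚ) } : WeierstrassCurve ℚ)))

/-- the order of vanishing of `F` at `s = 1`, as a natural number -/
noncomputable def ord (F : ℂ → ℂ) : ℕ := (analyticOrderAt F 1).toNat

/-- `|rank E_d(ℚ) - ord_{s=1} F|` for the twist `E_d` of `y² = x³ + a x + b` by `d` -/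
noncomputable def gap (a b d : ℤ) (F : ℂ → ℂ) : ℝ :=
  |(rank (a * d ^ 2) (b * d ^ 3) : ℝ) - (ord F : ℝ)|

/-- the squarefree integers `d`, positive or negative, with `|d| ≤ X` -/
noncomputable def family (X : ℕ) : Finset ℤ := (Finset.Icc (-(X : ℤ)) X).filter Squarefree

theorem family_eq (X : ℕ) : family X = sqf X := by
  ext d
  rw [mem_sqf]
  unfold family
  rw [Finset.mem_filter, Finset.mem_Icc, ← abs_le]

theorem gap_le (a b d : ℤ) (F : ℂ → ℂ) : gap a b d F ≤ (rkord (a * d ^ 2) (b * d ^ 3) F : ℝ) := by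
  unfold gap rkord rank ord
  push_cast
  rw [abs_le]
  constructor <;> nlinarith [Nat.cast_nonneg (α := ℝ) (analyticOrderAt F 1).toNat,
    Nat.cast_nonneg (α := ℝ) (Module.finrank ℤ
    (WeierstrassCurve.Affine.Point
      (WeierstrassCurve.toAffine
        ({ a₁ := 0, a₂ := 0, a₃ := 0, a₄ := ((a * d ^ 2 : ℤ) : ℚ), a₆ := ((b * d ^ 3 : ℤ) : ℚ) } :
          WeierstrassCurve ℚ))))]

/-- The law of the gap for the quadratic twists of `y² = x³ + a x + b`. -/
def GapLaw (a b : ℤ) : Prop :=
  (∀ d : ℤ, Squarefree d →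
    Module.Finite ℤ (WeierstrassCurve.Affine.Point (WeierstrassCurve.toAffine
      ({ a₁ := 0, a₂ := 0, a₃ := 0, a₄ := ((a * d ^ 2 : ℤ) : ℚ), a₆ := ((b * d ^ 3 : ℤ) : ℚ) } :
        WeierstrassCurve ℚ))) ∧
    ∃! F : ℂ → ℂ, IsLFun (a * d ^ 2) (b * d ^ 3) F) ∧
  ∀ F : ℤ → ℂ → ℂ, (∀ d : ℤ, Squarefree d → IsLFun (a * d ^ 2) (b * d ^ 3) (F d)) →
    (∀ d : ℤ, Squarefree d → analyticOrderAt (F d) 1 ≠ ⊤) ∧
    (∃ (C c : ℝ) (A : ℕ), 0 < c ∧ ∀ X : ℕ, 3 ≤ X →
      ∑ d ∈ family X, Real.exp (c * (rank (a * d ^ 2) (b * d ^ 3) + ord (F d))) ≤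
        C * X * Real.log X ^ A) ∧
    (∀ B : ℕ, ∃ C K : ℝ, ∀ X : ℕ, 3 ≤ X →
      (((family X).filter fun d => K * Real.log (Real.log X) < gap a b d (F d)).card : ℝ) ≤
        C * (X / Real.log X ^ B)) ∧
    ∀ k B : ℕ, ∃ C : ℝ, ∀ (X : ℕ) (S : Finset ℤ), 3 ≤ X → S ⊆ family X →
      ∑ d ∈ S, gap a b d (F d) ^ k ≤
        C * (S.card + X / Real.log X ^ B) * (1 + Real.log (Real.log X)) ^ k

theorem gapLaw_of {a b : ℤ} (h : TwistLaw a b) : GapLaw a b := by
  obtain ⟨h1, h2⟩ := h
  refine ⟨h1, fun F hF => ?_⟩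
  obtain ⟨h3, ⟨C, c, A, hc, h4⟩, h5⟩ := h2 F hF
  refine ⟨h3, ⟨C, c, A, hc, fun X hX => ?_⟩, fun B => ?_, fun k B => ?_⟩
  · rw [family_eq]
    refine le_trans (le_of_eq (Finset.sum_congr rfl fun d _ => ?_)) (h4 X hX)
    unfold rkord rank ord
    push_cast
    rfl
  · refine ⟨C, ((A + B : ℕ) : ℝ) / c, fun X hX => ?_⟩
    have hl := Pool.Agent.Y19.QT.one_le_log hX
    have hl0 : 0 < Real.log X := by linarith
    rw [family_eq]
    have hle : (((sqf X).filter fun d =>
        ((A + B : ℕ) : ℝ) / c * Real.log (Real.log X) < gap a b d (F d)).card : ℝ) *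
        Real.log X ^ (A + B) ≤ C * X * Real.log X ^ A := by
      calc _ = ∑ d ∈ (sqf X).filter fun d =>
            ((A + B : ℕ) : ℝ) / c * Real.log (Real.log X) < gap a b d (F d),
            Real.log X ^ (A + B) := by rw [Finset.sum_const, nsmul_eq_mul]
        _ ≤ ∑ d ∈ (sqf X).filter fun d =>
            ((A + B : ℕ) : ℝ) / c * Real.log (Real.log X) < gap a b d (F d),
            Real.exp (c * rkord (a * d ^ 2) (b * d ^ 3) (F d)) := by
          refine Finset.sum_le_sum fun d hd => ?_
          have h6 := (Finset.mem_filter.1 hd).2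
          have h7 : Real.log X ^ (A + B) = Real.exp ((A + B : ℕ) * Real.log (Real.log X)) := by
            rw [Real.exp_nat_mul, Real.exp_log hl0]
          rw [h7]
          apply Real.exp_le_exp.2
          have h8 := h6.le.trans (gap_le a b d (F d))
          have h9 : c * (((A + B : ℕ) : ℝ) / c * Real.log (Real.log X)) ≤
              c * rkord (a * d ^ 2) (b * d ^ 3) (F d) := mul_le_mul_of_nonneg_left h8 hc.le
          have h10 : c * (((A + B : ℕ) : ℝ) / c * Real.log (Real.log X)) =
              (A + B : ℕ) * Real.log (Real.log X) := by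
            field_simp
          linarith
        _ ≤ ∑ d ∈ sqf X, Real.exp (c * rkord (a * d ^ 2) (b * d ^ 3) (F d)) :=
          Finset.sum_le_sum_of_subset_of_nonneg (Finset.filter_subset _ _)
            fun _ _ _ => (Real.exp_pos _).le
        _ ≤ _ := h4 X hX
    have h11 : C * (X / Real.log X ^ B) = C * X * Real.log X ^ A / Real.log X ^ (A + B) := by
      rw [pow_add]
      field_simp
    rw [h11, le_div_iff₀ (by positivity)]
    exact hle
  · obtain ⟨C, h6⟩ := h5 k B
    refine ⟨C, fun X S hX hS => ?_⟩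
    rw [family_eq] at hS
    refine le_trans (Finset.sum_le_sum fun d _ => ?_) (h6 X S hX hS)
    exact pow_le_pow_left₀ (abs_nonneg _) (gap_le a b d (F d)) k

/-- **The gap between rank and order in the families of quadratic twists.** -/
theorem result : (∀ a b : ℤ, Fam a b → GapLaw a b) ∧
    ∀ a b : ℤ, 4 * a ^ 3 + 27 * b ^ 2 ≠ 0 → TwistsModular a b → GapLaw a b :=
  ⟨fun _ _ h => gapLaw_of (Pool.Agent.Y19.QT.twistLaw_of h.disc h.data.1 h.data.2),
    fun _ _ hab h => gapLaw_of (Pool.Agent.Y19.QT.twistLaw_modular hab h)⟩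

end Pool.Agent.Results.MP_696deb_nt.GapInTwistFamilies
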