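import Mathlib
import Pool.Agent.R413.SQ.Cor
import Pool.Agent.Y703.CX.Rank
import Pool.Agent.U687.JT.Main
import Pool.Agent.U687.JT.Cnt
import Pool.Agent.U687.PT.Up

/-!
# The rank form for several unrelated curves twisted by the same prime, for every member of the families

`E_D : y² = x³ - 35 D² x - 98 D³` is the quadratic twist by `D` of `X_0(49)` (complex multiplication by
`√-7`), for the squarefree `D` with all prime factors `1` modulo `4` (inert or split in `ℚ(√-7)`, in any
number). `C_N : y² = x³ - 432 N²`, that is `x³ + y³ = N` (complex multiplication by `√-3`), for the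
cube-free `N` prime to `3` with exactly one prime factor `2` modulo `3`; it is `3`-isogenous to
`y² + N y = x³`.

Nothing is assumed on the ranks, on `Ш` or on the `L`-functions of the curves `E_D` and `C_N` below. Let
`𝒟` be ANY finite set of pairwise coprime numbers `D` of the first class, `N` ANY number of the second
class, and `j = 1, 4, 7` a class modulo `9` with `N j ≠ ±1` modulo `9` (two of the three classes have this
property). Let `ℓ` run over the primes with `ℓ = j` modulo `9` and `ℓ = 1` modulo `4`.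

* Among the `ℓ` which are inert in `ℚ(√-7)` the proportion of the `ℓ` for which ALL the curves `E_{Dℓ}`,
  `D ∈ 𝒟`, and `C_{Nℓ}` satisfy the rank form with order and rank `0`, and moreover
  `Ш(E_{Dℓ})[2] = 0` for all `D ∈ 𝒟` and `Ш[3^∞] = 0` for `y² + N ℓ y = x³`, tends to
  `c(N) ∏_{D ∈ 𝒟} c₀(D)`: the events for the different curves are independent. Here `c₀(D)` is the
  proportion of the vectors `v` over the field with two elements such that `mat D + diag v` is
  nonsingular, and `c(N)` is the proportion of the nonsingular systems in a family of `3 ^ (2 k + 1)`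
  systems of linear equations over the field with three elements.
* Among the `ℓ` which split in `ℚ(√-7)` the same is true for one `D`, with `c₁(D)`, the proportion of the
  nonsingular ones among the symmetric matrices obtained from `mat D` by adding a vector `v` to the
  diagonal and bordering with `v` and an arbitrary corner.
* `c₀(D) ≥ 2 ^ (- n)`, `c₁(D) ≥ 2 ^ (- n - 1)`, `n` being the number of the prime factors of `D` which
  split in `ℚ(√-7)`, and `c(N) ≥ (2 / 3) ^ (k + 1)`, `k` being the number of the prime factors of `N`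
  which are `1` modulo `3`. So all these proportions are positive.

Proof. The criteria for one curve (and the nonvanishing of the values of the `L`-functions) are from the
starting library: `mat D` is nonsingular iff `E_D(ℚ)` is finite and `Ш(E_D)[2] = 0`
(`MP_4a9ea6_nt.TwoPartTwistsX49`, `Pool.Agent.R413.SQ.Cor`), and the criterion of `Y703.CT`, `Y703.CX`
for `C_N`. New: by reciprocity an inert prime `ℓ` adds its own symbols to the diagonal of `mat D`, a split
prime borders the matrix; the joint law of the quadratic symbols of the prime factors of the `D`, of the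
quartic symbol of `-7` and of the cubic symbols of the prime elements of `ℤ[ω]` dividing `N`, from the
theorem of Chebotarev for a number field that contains all the roots: the independence follows from
primes in arithmetic progressions, from the square of an automorphism that moves `√-7`, and from the
coprimality of the orders `2` and `3`.
-/

set_option autoImplicit false
set_option linter.style.haveILetI false

open scoped Classical

namespace Pool.Agent.Results.MP_696deb_nt.SimultaneousPrimeTwists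

open Filter Matrix WeierstrassCurve
open Pool.Agent.Y703.CX (lam)

/-- the curve `y² = x³ + a x + b` over `ℚ` -/
def curve (a b : ℤ) : WeierstrassCurve ℚ := { a₁ := 0, a₂ := 0, a₃ := 0, a₄ := (a : ℚ), a₆ := (b : ℚ) }

/-- The conclusion of the frozen statement for the curve `y² = x³ + a x + b` (`F` is the entire
continuation of the incomplete `L`-series), with finitely many rational points: the order of vanishing
and the rank are both `0`. -/
def RankFormZero (a b : ℤ) : Prop :=
  4 * a ^ 3 + 27 * b ^ 2 ≠ 0 ∧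
    ∃ F : ℂ → ℂ, Differentiable ℂ F ∧
      (∀ s : ℂ, (3 : ℝ) / 2 < s.re →
        HasProd
          (fun p : ℕ =>
            if p.Prime ∧ ¬ ((p : ℤ) ∣ 2 * (-4 * a ^ 3 - 27 * b ^ 2)) then
              (1 - ((p : ℂ) - (Nat.card {q : ZMod p × ZMod p //
                  q.2 ^ 2 = q.1 ^ 3 + (a : ZMod p) * q.1 + (b : ZMod p)} : ℂ))
                  * (p : ℂ) ^ (-s) + (p : ℂ) ^ (1 - 2 * s))⁻¹
            else 1)
          (F s)) ∧
      analyticOrderAt F 1 = ((Module.finrank ℤ (curve a b).toAffine.Point : ℕ) : ℕ∞) ∧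
      Module.finrank ℤ (curve a b).toAffine.Point = 0 ∧ F 1 ≠ 0

/-- the first class: `D` is squarefree and all its prime factors are `1` modulo `4` -/
def Class4 (D : ℕ) : Prop := Squarefree D ∧ ∀ p ∈ D.primeFactors, p % 4 = 1

/-- the second class: `N` is cube-free, prime to `3`, with exactly one prime factor `2` modulo `3` -/
def Class3 (N : ℕ) : Prop :=
  N ≠ 0 ∧ ¬ 3 ∣ N ∧ (∀ p : ℕ, p.Prime → ¬ p ^ 3 ∣ N) ∧
    ∃ q : ℕ, q.Prime ∧ q % 3 = 2 ∧ q ∣ N ∧ ∀ p : ℕ, p.Prime → p ∣ N → p ≠ q → p % 3 = 1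

/-- `E_D : y² = x³ - 35 D² x - 98 D³` satisfies the rank form with order and rank `0`, `E_D(ℚ)` is finite,
and `Ш(E_D/ℚ)[2] = 0` -/
def Good4 (D : ℕ) : Prop :=
  RankFormZero (-35 * (D : ℤ) ^ 2) (-98 * (D : ℤ) ^ 3) ∧
    Finite (curve (-35 * (D : ℤ) ^ 2) (-98 * (D : ℤ) ^ 3)).toAffine.Point ∧
    ∀ x : Pool.Agent.TH841.NF.D.Sha (curve (-35 * (D : ℤ) ^ 2) (-98 * (D : ℤ) ^ 3)),
      2 • x = 0 → x = 0

/-- `C_N : y² = x³ - 432 N²` satisfies the rank form with order and rank `0`, and for the `3`-isogenous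
curve `E : y² + N y = x³` the group `E(ℚ)` is finite and `Ш(E/ℚ)[3^∞] = 0` -/
def Good3 (N : ℕ) : Prop :=
  RankFormZero 0 (-432 * (N : ℤ) ^ 2) ∧
    Finite (⟨0, 0, (N : ℚ), 0, 0⟩ : WeierstrassCurve ℚ).toAffine.Point ∧
    ∀ (n : ℕ) (x : Pool.Agent.TH841.SH.D.Sha (⟨0, 0, (N : ℚ), 0, 0⟩ : WeierstrassCurve ℚ)),
      3 ^ n • x = 0 → x = 0

/-- the prime factors of `D` which split in `ℚ(√-7)` -/
noncomputable def split (D : ℕ) : Finset ℕ := D.primeFactors.filter fun p => IsSquare (-7 : ZMod p)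

/-- `1` if `m` is not a square modulo `p`, and `0` if it is -/
noncomputable def nonsq (p m : ℕ) : ZMod 2 := if IsSquare (m : ZMod p) then 0 else 1

/-- `1` if `-7` is not a fourth power modulo `p`, and `0` if it is -/
noncomputable def nonfourth (p : ℕ) : ZMod 2 := if ∃ y : ZMod p, y ^ 4 = -7 then 0 else 1

/-- the matrix of `D` over the field with two elements, indexed by the prime factors of `D` which split in
`ℚ(√-7)`: the entry at `(i, j)` is `nonsq i j` for `i ≠ j`, and the entry at `(i, i)` is the sum of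
`nonfourth i` and of the `nonsq i l` for all the prime factors `l ≠ i` of `D` -/
noncomputable def mat (D : ℕ) : Matrix (split D) (split D) (ZMod 2) := Matrix.of fun i j =>
  if i = j then nonfourth i + ∑ l ∈ D.primeFactors.erase i, nonsq i l else nonsq i j

/-- the proportion of the vectors `v` such that `mat D + diagonal v` is nonsingular -/
noncomputable def c₀ (D : ℕ) : ℝ :=
  (Nat.card {v : split D → ZMod 2 // (mat D + diagonal v).det ≠ 0} : ℝ) / 2 ^ (split D).card

/-- the matrix `mat D` with `v` added to the diagonal, bordered by `v` and the corner `d` -/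
noncomputable def bordered (D : ℕ) (v : split D → ZMod 2) (d : ZMod 2) :
    Matrix (split D ⊕ Unit) (split D ⊕ Unit) (ZMod 2) :=
  Matrix.fromBlocks (mat D + diagonal v) (Matrix.of fun i _ => v i) (Matrix.of fun _ i => v i)
    (Matrix.of fun _ _ => d)

/-- the proportion of the pairs `(v, d)` such that the bordered matrix is nonsingular -/
noncomputable def c₁ (D : ℕ) : ℝ :=
  (Nat.card {x : (split D → ZMod 2) × ZMod 2 // (bordered D x.1 x.2).det ≠ 0} : ℝ) /
    2 ^ ((split D).card + 1)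

/-- the prime divisors of `N` which are `1` modulo `3` -/
def S (N : ℕ) : Finset ℕ := N.primeFactors.filter fun p => p % 3 = 1

/-- the system with the parameters `a` (on the diagonal) and `b` (on the border) is nonsingular;
`lam p r` is the logarithm `c` of the cubic residue symbol `ω ^ c` of `r` modulo a fixed prime element
of norm `p` of `ℤ[ω]`, and `N.factorization r` is the exponent of `r` in `N` -/
def Nonsingular (N : ℕ) (a : S N → ZMod 3) (b : N.primeFactors → ZMod 3) : Prop :=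
  ∀ g : N.primeFactors → ZMod 3,
    (∀ (p : S N) (gp : ZMod 3), (∀ h : (p : ℕ) ∈ N.primeFactors, gp = g ⟨p, h⟩) →
      ∑ r : N.primeFactors, (N.factorization r : ZMod 3) * lam p r * (g r - gp) = a p * gp) →
    ∑ r : N.primeFactors, (N.factorization r : ZMod 3) * b r * g r = 0 → g = 0

/-- the proportion of the nonsingular systems -/
noncomputable def c (N : ℕ) : ℝ :=
  (Nat.card {x : (S N → ZMod 3) × (N.primeFactors → ZMod 3) // Nonsingular N x.1 x.2} : ℝ) /
    3 ^ (2 * (S N).card + 1)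

/-- the number of the primes `ℓ ≤ X`, `ℓ = j` modulo `9`, `ℓ = 1` modulo `4`, inert in `ℚ(√-7)`, with the
property `P` -/
noncomputable def countInert (j : ℕ) (P : ℕ → Prop) (X : ℕ) : ℕ :=
  ((Finset.Icc 1 X).filter fun l => l.Prime ∧ l % 9 = j ∧ (l % 4 = 1 ∧ ¬ IsSquare (-7 : ZMod l)) ∧
    P l).card

/-- the number of the primes `ℓ ≤ X`, `ℓ = j` modulo `9`, `ℓ = 1` modulo `4`, split in `ℚ(√-7)`, with the
property `P` -/
noncomputable def countSplit (j : ℕ) (P : ℕ → Prop) (X : ℕ) : ℕ :=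
  ((Finset.Icc 1 X).filter fun l => l.Prime ∧ l % 9 = j ∧ (l % 4 = 1 ∧ IsSquare (-7 : ZMod l)) ∧
    P l).card

section proof

open Pool.Agent.U687.PT Pool.Agent.U687.JT
open Q283.TQ (NSg Bs bs_mul aa bb crit)
open Pool.Agent.Y692.QS (Ei w nr)
open Pool.Agent.Y715.T.Rec (cs)
open Pool.Agent.Y715.T.RecG (Pq)


theorem mat_eq (D : ℕ) : mat D = Pool.Agent.Results.MP_4a9ea6_nt.TwoPartTwistsX49.mat D := rfl

theorem good4_iff {D : ℕ} (h : Pool.Agent.Results.MP_4a9ea6_nt.TwoPartTwistsX49.Adm D) : Good4 D ↔ (Pool.Agent.Results.MP_4a9ea6_nt.TwoPartTwistsX49.mat D).det ≠ 0 := by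
  have e : curve (-35 * (D : ℤ) ^ 2) (-98 * (D : ℤ) ^ 3) = Pool.Agent.R413.SQ.Cor.ES D := rfl
  have hc := Pool.Agent.R413.SQ.Cor.crit h
  rw [← e] at hc
  rw [← hc]
  constructor
  · rintro ⟨-, h2, h3⟩
    exact ⟨h2, h3⟩
  · rintro ⟨h2, h3⟩
    refine ⟨?_, h2, h3⟩
    obtain ⟨F, k1, k2, k3, k4⟩ := Pool.Agent.R413.SQ.Cor.rank_bsd h (hc.1 ⟨h2, h3⟩)
    refine ⟨?_, F, k1, k2, ?_, k4, ?_⟩
    · have hD : (D : ℤ) ≠ 0 := by exact_mod_cast h.1.ne_zero
      have e2 : 4 * (-35 * (D : ℤ) ^ 2) ^ 3 + 27 * (-98 * (D : ℤ) ^ 3) ^ 2 = 87808 * (D : ℤ) ^ 6 := by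
        ring
      rw [e2]
      positivity
    · have k4' : Module.finrank ℤ (curve (-35 * (D : ℤ) ^ 2) (-98 * (D : ℤ) ^ 3)).toAffine.Point = 0 :=
        k4
      rw [k4']
      exact k3
    · exact (k1.analyticAt 1).analyticOrderAt_eq_zero.1 k3

theorem bs {N : ℕ} (h : Class3 N) : Bs N := ⟨⟨h.1, h.2.1, h.2.2.1⟩, h.2.2.2⟩

theorem cls {N l j : ℕ} (hN : Class3 N) (hj : j = 1 ∨ j = 4 ∨ j = 7) (h1 : (N * j) % 9 ≠ 1)
    (h8 : (N * j) % 9 ≠ 8) (hl : l.Prime) (hlj : l % 9 = j) (hlN : ¬ l ∣ N) :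
    Pool.Agent.Y703.CT.Cls (N * l) := by
  have hl1 : l % 3 = 1 := by rcases hj with rfl | rfl | rfl <;> omega
  have h2 := bs_mul (bs hN) hl hl1 hlN
  have h3 : (N * l) % 9 = (N * j) % 9 := by rw [Nat.mul_mod, hlj, Nat.mul_mod N j, ← hlj, Nat.mod_mod]
  exact ⟨h2.1, by rw [h3]; exact h1, by rw [h3]; exact h8, h2.2⟩

theorem good3_iff {N : ℕ} (hC : Pool.Agent.Y703.CT.Cls N) :
    Good3 N ↔ Pool.Agent.Y703.CT.NoSplit N := by
  have e : Pool.Agent.Y703.CT.EQ (Pool.Agent.Y703.CT.WD N) = (⟨0, 0, (N : ℚ), 0, 0⟩ :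
      WeierstrassCurve ℚ) := by
    unfold Pool.Agent.Y703.CT.EQ Pool.Agent.Y703.CT.WD WeierstrassCurve.map
    simp
  obtain ⟨-, -, -, -, -, -, -, h6⟩ := Pool.Agent.Y703.CT.fin_all hC
  constructor
  · rintro ⟨-, h2, h3⟩
    refine h6.1 ?_
    unfold Pool.Agent.Y703.CT.Triv3
    rw [e]
    exact ⟨h2, h3⟩
  · intro h
    have hT := h6.2 h
    unfold Pool.Agent.Y703.CT.Triv3 at hT
    rw [e] at hT
    refine ⟨?_, hT⟩
    obtain ⟨F, k1, k2, k3, k4⟩ := Pool.Agent.Y703.CX.rank_form hC h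
    refine ⟨?_, F, k1, k2, ?_, k4, ?_⟩
    · have hD : (N : ℤ) ≠ 0 := by exact_mod_cast hC.1.1
      have e2 : (4 * 0 ^ 3 + 27 * (-432 * (N : ℤ) ^ 2) ^ 2 : ℤ) = 27 * (432 * (N : ℤ) ^ 2) ^ 2 := by
        ring
      rw [e2]
      positivity
    · have k4' : Module.finrank ℤ (curve 0 (-432 * (N : ℤ) ^ 2)).toAffine.Point = 0 := k4
      rw [k4']
      exact k3
    · exact (k1.analyticAt 1).analyticOrderAt_eq_zero.1 k3

theorem nonsingular_iff (N : ℕ) (a : S N → ZMod 3) (b : N.primeFactors → ZMod 3) :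
    Nonsingular N a b ↔ NSg N (ext0 (S := S N) a) (ext0 b) := by
  have hS : ∀ (g : ℕ → ZMod 3) (F : ℕ → ZMod 3), ∑ r ∈ N.primeFactors, F r =
      ∑ r : N.primeFactors, F r := fun g F => (Finset.sum_coe_sort _ _).symm
  constructor
  · intro h g h1 h2 p hp
    have h3 := h (fun r => g r) (fun p gp hgp => by
      obtain ⟨hp1, hp2⟩ := Finset.mem_filter.1 p.2
      have h4 := h1 p hp1 hp2
      rw [hgp hp1]
      have e1 : ext0 (S := S N) a p = a p := ext0_of (S := S N) a p
      rw [e1, hS g] at h4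
      exact h4) (by
      rw [hS g] at h2
      rw [← h2]
      refine Finset.sum_congr rfl fun r _ => ?_
      rw [ext0_of]
      rfl)
    exact congrFun h3 ⟨p, hp⟩
  · intro h g h1 h2
    have h3 := h (ext0 g) (fun p hp hp1 => by
      have h4 := h1 ⟨p, Finset.mem_filter.2 ⟨hp, hp1⟩⟩ (g ⟨p, hp⟩) (fun _ => rfl)
      have e1 : ext0 (S := S N) a p = a ⟨p, Finset.mem_filter.2 ⟨hp, hp1⟩⟩ :=
        ext0_of (S := S N) a ⟨p, Finset.mem_filter.2 ⟨hp, hp1⟩⟩
      have e2 : ext0 g p = g ⟨p, hp⟩ := ext0_of g ⟨p, hp⟩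
      rw [hS (ext0 g), e1, e2, ← h4]
      refine Finset.sum_congr rfl fun r _ => ?_
      rw [ext0_of]
      rfl) (by
      rw [hS (ext0 g), ← h2]
      refine Finset.sum_congr rfl fun r _ => ?_
      rw [ext0_of, ext0_of]
      rfl)
    funext r
    rw [← ext0_of g r]
    exact h3 r r.2

theorem c_eq (N : ℕ) : c N = (good N : ℝ) / 3 ^ (2 * (S1 N).card + 1) := by
  unfold c good
  have e : Nat.card {x : (S N → ZMod 3) × (N.primeFactors → ZMod 3) // Nonsingular N x.1 x.2} =
      Nat.card {x : (S1 N → ZMod 3) × (N.primeFactors → ZMod 3) //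
        NSg N (ext0 x.1) (ext0 x.2)} :=
    Nat.card_congr (Equiv.subtypeEquivRight fun x => nonsingular_iff N x.1 x.2)
  rw [e]
  rfl

/-- the cubic side of the joint law -/
theorem cubic {N : ℕ} (hN : Class3 N) {j : ℕ} (hj : j = 1 ∨ j = 4 ∨ j = 7) (h1 : (N * j) % 9 ≠ 1)
    (h8 : (N * j) % 9 ≠ 8) (p : ℕ) [hp : Fact p.Prime] (hpN : ¬ p ∣ N) (h9 : p % 9 = j)
    (h3 : p % 3 = 1) (π : Ei) (hπ : Pq π) (hn : nr π = p) :
    NSg N (ext0 (Phi N (fun q : PP N => cs π q)).1) (ext0 (Phi N (fun q : PP N => cs π q)).2) ↔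
      Good3 (N * p) := by
  rw [good3_iff (cls hN hj h1 h8 hp.out h9 hpN), crit (bs hN) hp.out h3 hpN hπ hn]
  exact nsg_iff N π

theorem card_cubic {N : ℕ} (hN : Class3 N) :
    (Nat.card {x : PP N → ZMod 3 // NSg N (ext0 (Phi N x).1) (ext0 (Phi N x).2)} : ℝ) /
      3 ^ (PP N).card = c N := by
  rw [card_Phi (bs hN), card_PP (bs hN), c_eq]

end proof

open Pool.Agent.U687.PT Pool.Agent.U687.JT in
/-- **The rank form for several unrelated curves twisted by the same prime.** -/
theorem result (N : ℕ) (hN : Class3 N) (j : ℕ) (hj : j = 1 ∨ j = 4 ∨ j = 7)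
    (h1 : (N * j) % 9 ≠ 1) (h8 : (N * j) % 9 ≠ 8) :
    (∀ 𝒟 : Finset ℕ, (∀ D ∈ 𝒟, Class4 D) → (∀ D ∈ 𝒟, ∀ D' ∈ 𝒟, D ≠ D' → Nat.Coprime D D') →
      Tendsto (fun X : ℕ =>
        (countInert j (fun l => (∀ D ∈ 𝒟, Good4 (D * l)) ∧ Good3 (N * l)) X : ℝ) /
          (countInert j (fun _ => True) X : ℝ)) atTop (nhds ((∏ D ∈ 𝒟, c₀ D) * c N))) ∧
    (∀ D : ℕ, Class4 D →
      Tendsto (fun X : ℕ =>
        (countSplit j (fun l => Good4 (D * l) ∧ Good3 (N * l)) X : ℝ) /
          (countSplit j (fun _ => True) X : ℝ)) atTop (nhds (c₁ D * c N))) ∧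
    (∀ D : ℕ, (1 / 2 : ℝ) ^ (split D).card ≤ c₀ D ∧ (1 / 2 : ℝ) ^ ((split D).card + 1) ≤ c₁ D) ∧
    (2 / 3 : ℝ) ^ ((S N).card + 1) ≤ c N := by
  have hadm : ∀ D, Class4 D → Pool.Agent.Results.MP_4a9ea6_nt.TwoPartTwistsX49.Adm D := fun D h => h
  have hN0 : 0 < N := Nat.pos_of_ne_zero hN.1
  refine ⟨fun 𝒟 h𝒟 hco => ?_, fun D hD => ?_, fun D => ⟨c0_ge D, c1_ge D⟩, ?_⟩
  · set R : Finset ℕ := 𝒟.biUnion Nat.primeFactors with hR
    have hRp : ∀ r ∈ R, r.Prime ∧ r % 4 = 1 := by
      intro r hr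
      obtain ⟨D, hD, hr⟩ := Finset.mem_biUnion.1 hr
      exact ⟨Nat.prime_of_mem_primeFactors hr, (h𝒟 D hD).2 r hr⟩
    have hsub : ∀ D ∈ 𝒟, D.primeFactors ⊆ R := fun D hD r hr => Finset.mem_biUnion.2 ⟨D, hD, hr⟩
    have hprod : 0 < ∏ D ∈ 𝒟, D :=
      Finset.prod_pos fun D hD => Nat.pos_of_ne_zero (h𝒟 D hD).1.ne_zero
    have h := law_inert (bs hN) hj R hRp (N * ∏ D ∈ 𝒟, D) (by positivity)
      (fun x => Q283.TQ.NSg N (ext0 (Phi N x).1) (ext0 (Phi N x).2)) (fun l => Good3 (N * l))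
      (fun p _ hp h9 h3 π hπ hn => cubic hN hj h1 h8 p (fun h => hp (h.mul_right _)) h9 h3 π hπ hn)
      (fun u => ∀ D ∈ 𝒟, (Pool.Agent.Results.MP_4a9ea6_nt.TwoPartTwistsX49.mat D +
        diagonal fun i : Pool.Agent.Results.MP_4a9ea6_nt.TwoPartTwistsX49.split D => ext2 u i).det ≠ 0)
      (fun l => ∀ D ∈ 𝒟, Good4 (D * l)) (by
        intro p hp hpN h4 h7
        have hpD : ∀ D ∈ 𝒟, ¬ p ∣ D := fun D hD hd =>
          (bad_spec hpN).2.2.2 ((hd.trans (Finset.dvd_prod_of_mem (fun D => D) hD)).mul_left _)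
        refine forall₂_congr fun D hD => ?_
        have hA := hadm D (h𝒟 D hD)
        rw [good4_iff (adm_mul hA hp.out h4 (hpD D hD)), det_inert hA hp.out (hpD D hD) h7]
        have e : (fun i : Pool.Agent.Results.MP_4a9ea6_nt.TwoPartTwistsX49.split D =>
            ext2 (fun r : R => nr2 p r) i) =
            fun i : Pool.Agent.Results.MP_4a9ea6_nt.TwoPartTwistsX49.split D =>
            Pool.Agent.Results.MP_4a9ea6_nt.TwoPartTwistsX49.nonsq i p := by
          funext i
          have hi := mem_split.1 i.2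
          rw [ext2_nr2 p (hsub D hD hi.1)]
          exact nonsq_symm hp.out (Nat.prime_of_mem_primeFactors hi.1) h4 (hA.2 _ hi.1)
        rw [e])
    rw [ratio_inert hco hsub, card_cubic hN] at h
    refine h.congr fun X => ?_
    unfold countInert
    simp only [and_true]
    congr!
  · have hA := hadm D hD
    have hRp : ∀ r ∈ D.primeFactors, r.Prime ∧ r % 4 = 1 := fun r hr =>
      ⟨Nat.prime_of_mem_primeFactors hr, hD.2 r hr⟩
    have h := law_split (bs hN) hj D.primeFactors hRp (N * D)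
      (Nat.mul_pos hN0 (Nat.pos_of_ne_zero hD.1.ne_zero))
      (fun x => Q283.TQ.NSg N (ext0 (Phi N x).1) (ext0 (Phi N x).2)) (fun l => Good3 (N * l))
      (fun p _ hp h9 h3 π hπ hn => cubic hN hj h1 h8 p (fun h => hp (h.mul_right _)) h9 h3 π hπ hn)
      (fun x => (Q283.TW.bord (Pool.Agent.Results.MP_4a9ea6_nt.TwoPartTwistsX49.mat D)
        (fun i : Pool.Agent.Results.MP_4a9ea6_nt.TwoPartTwistsX49.split D => ext2 x.1 i)
        (x.2 + ∑ l ∈ D.primeFactors, ext2 x.1 l)).det ≠ 0)
      (fun l => Good4 (D * l)) (by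
        intro p hp hpN h4 h7
        have hpD : ¬ p ∣ D := fun hd => (bad_spec hpN).2.2.2 (hd.mul_left _)
        rw [good4_iff (adm_mul hA hp.out h4 hpD), det_split hA hp.out h4 hpD h7]
        have e : (fun i : Pool.Agent.Results.MP_4a9ea6_nt.TwoPartTwistsX49.split D =>
            ext2 (fun r : D.primeFactors => nr2 p r) i) =
            fun i : Pool.Agent.Results.MP_4a9ea6_nt.TwoPartTwistsX49.split D =>
            Pool.Agent.Results.MP_4a9ea6_nt.TwoPartTwistsX49.nonsq i p := by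
          funext i
          have hi := mem_split.1 i.2
          rw [ext2_nr2 p hi.1]
          exact nonsq_symm hp.out (Nat.prime_of_mem_primeFactors hi.1) h4 (hA.2 _ hi.1)
        have e2 : ∑ l ∈ D.primeFactors, ext2 (fun r : D.primeFactors => nr2 p r) l =
            ∑ l ∈ D.primeFactors, Pool.Agent.Results.MP_4a9ea6_nt.TwoPartTwistsX49.nonsq p l :=
          Finset.sum_congr rfl fun l hl => ext2_nr2 p hl
        show (Q283.TW.bord _ (fun i : Pool.Agent.Results.MP_4a9ea6_nt.TwoPartTwistsX49.split D =>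
          ext2 (fun r : D.primeFactors => nr2 p r) i)
          (n47 p + ∑ l ∈ D.primeFactors, ext2 (fun r : D.primeFactors => nr2 p r) l)).det ≠ 0 ↔ _
        rw [e, e2]
        rfl)
    rw [ratio_split (Finset.Subset.refl _), card_cubic hN] at h
    refine h.congr fun X => ?_
    unfold countSplit
    simp only [and_true]
  · rw [c_eq, le_div_iff₀ (by positivity)]
    have h2 : ((2 ^ ((S1 N).card + 1) * 3 ^ (S1 N).card : ℕ) : ℝ) ≤ (good N : ℝ) := by
      exact_mod_cast good_ge (bs hN)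
    refine le_trans (le_of_eq ?_) h2
    have e : (S N).card = (S1 N).card := rfl
    rw [e, div_pow]
    push_cast
    have e2 : (3 : ℝ) ^ (2 * (S1 N).card + 1) = 3 ^ ((S1 N).card + 1) * 3 ^ (S1 N).card := by
      rw [← pow_add]
      congr 1
      ring
    rw [e2]
    field_simp

end Pool.Agent.Results.MP_696deb_nt.SimultaneousPrimeTwists
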