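import Pool.Agent.U115.X14

/-!
# The rank form for the twists of `X_0(14)` by one or two split primes and any number of inert primes

`E_D : y² = x³ + 5805 D² x - 285714 D³` is the quadratic twist by `D` of the modular curve `X_0(14)`
(`E_1` is the short equation of `y² + x y + y = x³ + 4 x - 6`). A prime `q` is inert if it is `5` modulo
`8` and not a square modulo `7`, a prime `p` is split if it is `1` modulo `8` and a square modulo `7`.
`m` is any product of different inert primes, `m = 1` allowed.

Let `p i`, `i < k`, be `k = 1` or `k = 2` different split primes and `D = (∏ p i) m`. The matrix over the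
field with two elements attached to `p` and `m` is the Laplacian of the quadratic symbols of the `p i`,
plus the diagonal matrix with the entries `1` or `0` according as the number of the points of `E_m` over
`ℤ/(p i)` is not or is divisible by `8`.

* If this matrix is nonsingular, then the order of `L(E_D, s)` at `s = 1` and the rank of `E_D(ℚ)` are
  both `0`. For `k = 1` this means that `8` does not divide the number of the points of `E_m` over `ℤ/p`,
  for `k = 2` that `8` divides neither of the two numbers, or not both of them and `p 0` is not a square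
  modulo `p 1`.
* How often: for given split primes `p i` and given `m` the condition holds for `p` and `m q` for the
  expected proportion of the inert primes `q` (natural density): `1/2` for `k = 1`, and for `k = 2` `1/4`
  if `p 0` is a square modulo `p 1` and `3/4` if not.

Proof.
* Analytic side (`Y687`, `Y687/K2`): the sum over the divisors of `D` of the sums of the modular symbols
  with the quadratic characters is a sum over a subgroup; for two split primes it is compared with a sum
  over the quartic residues modulo one of them, and it is evaluated modulo a power of two with an integral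
  valued Dedekind symbol, the three term relation of Dedekind sums and an inner product of sign
  functions.
* Algebraic side: descents with the two isogenies of degree two.
* The density: the condition is one on the quadratic symbols of `q` modulo the `p i`; prime number
  theorem for arithmetic progressions.
The proofs are in the imported files (`Y687` of helper687 for the two sides, `U115` for the densities).
-/

set_option autoImplicit false

set_option linter.style.haveILetI false

open Filter Topology

namespace Pool.Agent.Results.MP_696deb_nt.SplitPrimesX14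

open scoped Classical

/-- inert primes: `5` modulo `8` and not squares modulo `7` -/
def Inert (q : ℕ) : Prop := q.Prime ∧ q % 8 = 5 ∧ (q % 7 = 3 ∨ q % 7 = 5 ∨ q % 7 = 6)

/-- split primes: `1` modulo `8` and squares modulo `7` -/
def Split (p : ℕ) : Prop := p.Prime ∧ p % 8 = 1 ∧ (p % 7 = 1 ∨ p % 7 = 2 ∨ p % 7 = 4)

/-- `m` is a product of different inert primes -/
def InertProduct (m : ℕ) : Prop := Squarefree m ∧ ∀ q : ℕ, q.Prime → q ∣ m → Inert q

/-- the coefficient of `x` of `E_D` -/
def A (D : ℕ) : ℤ := 5805 * (D : ℤ) ^ 2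

/-- the constant coefficient of `E_D` -/
def B (D : ℕ) : ℤ := -285714 * (D : ℤ) ^ 3

/-- the number of the points of `E_m` over `ℤ/p`, with the point at infinity -/
noncomputable def points (m p : ℕ) : ℕ :=
  Nat.card {P : ZMod p × ZMod p // P.2 ^ 2 = P.1 ^ 3 + (A m : ZMod p) * P.1 + (B m : ZMod p)} + 1

/-- `1` if `8` does not divide the number of the points of `E_m` over `ℤ/p`, and `0` otherwise -/
noncomputable def g (m p : ℕ) : ZMod 2 := if 8 ∣ points m p then 0 else 1

/-- `0` if `p` is a square modulo `p'`, and `1` otherwise -/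
noncomputable def symb (p p' : ℕ) : ZMod 2 := if IsSquare (p : ZMod p') then 0 else 1

/-- the Laplacian of the quadratic symbols of the primes `p i` -/
noncomputable def lap {k : ℕ} (p : Fin k → ℕ) : Matrix (Fin k) (Fin k) (ZMod 2) :=
  Matrix.of fun i j => if i = j then ∑ l, symb (p i) (p l) else symb (p i) (p j)

/-- the symmetric matrix attached to the split primes `p i` and to `m` is nonsingular -/
def Good {k : ℕ} (m : ℕ) (p : Fin k → ℕ) : Prop :=
  (lap p + Matrix.diagonal fun i => g m (p i)).det ≠ 0

/-- the curve `y² = x³ + a x + b` over `ℚ` -/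
def curve (a b : ℤ) : WeierstrassCurve ℚ := { a₁ := 0, a₂ := 0, a₃ := 0, a₄ := (a : ℚ), a₆ := (b : ℚ) }

/-- The conclusion of the frozen statement for the curve `y² = x³ + a x + b` (`F` is the entire
continuation of the incomplete `L`-series), with finitely many rational points: the order of vanishing
and the rank are both `0`. -/
def RankFormZero (a b : ℤ) : Prop :=
  4 * a ^ 3 + 27 * b ^ 2 ≠ 0 ∧
    ∃ F : ℂ → ℂ, Differentiable ℂ F ∧
      (∀ s : ℂ, (3 : ℝ) / 2 < s.re →
        HasProd
          (fun p : ℕ =>
            if p.Prime ∧ ¬ ((p : ℤ) ∣ 2 * (-4 * a ^ 3 - 27 * b ^ 2)) then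
              (1 - ((p : ℂ) - (Nat.card {q : ZMod p × ZMod p //
                  q.2 ^ 2 = q.1 ^ 3 + (a : ZMod p) * q.1 + (b : ZMod p)} : ℂ))
                  * (p : ℂ) ^ (-s) + (p : ℂ) ^ (1 - 2 * s))⁻¹
            else 1)
          (F s)) ∧
      analyticOrderAt F 1 = ((Module.finrank ℤ (curve a b).toAffine.Point : ℕ) : ℕ∞) ∧
      Module.finrank ℤ (curve a b).toAffine.Point = 0 ∧ Finite (curve a b).toAffine.Point

theorem nonsing {D : ℕ} (hD : D ≠ 0) : 4 * (A D) ^ 3 + 27 * (B D) ^ 2 ≠ 0 := by
  have e : 4 * (A D) ^ 3 + 27 * (B D) ^ 2 = (4 * 5805 ^ 3 + 27 * 285714 ^ 2) * (D : ℤ) ^ 6 := by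
    unfold A B
    ring
  rw [e]
  have : (D : ℤ) ≠ 0 := by exact_mod_cast hD
  positivity

theorem rankForm {D : ℕ} (hD : D ≠ 0)
    (h : (∃ f : ℂ → ℂ, Differentiable ℂ f ∧
      (∀ s : ℂ, (3 : ℝ) / 2 < s.re →
        HasProd (fun l : {l : ℕ // l.Prime ∧
            ¬ ((l : ℤ) ∣ 2 * (4 * (5805 * (D : ℤ) ^ 2) ^ 3 + 27 * (-285714 * (D : ℤ) ^ 3) ^ 2))} =>
          Pool.Agent.Y687.fac (5805 * (D : ℤ) ^ 2) (-285714 * (D : ℤ) ^ 3) s l) (f s)) ∧ f 1 ≠ 0) ∧
      {q : ℚ × ℚ | q.2 ^ 2 = q.1 ^ 3 + ((5805 * (D : ℤ) ^ 2 : ℤ) : ℚ) * q.1 +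
        ((-285714 * (D : ℤ) ^ 3 : ℤ) : ℚ)}.Finite) : RankFormZero (A D) (B D) := by
  obtain ⟨⟨f, h1, h2, h3⟩, h4⟩ := h
  obtain ⟨F, k1, k2, k3, k4⟩ := Pool.Agent.Y687.rankBSD h1 h2 h3 h4
  refine ⟨nonsing hD, F, k1, k2, ?_, k4, Pool.Agent.Y687.finite_pt_of_set h4⟩
  have k4' : Module.finrank ℤ (curve (A D) (B D)).toAffine.Point = 0 := k4
  rw [k4']
  exact k3

theorem prod_eq {m : ℕ} (h : InertProduct m) : ∏ q ∈ m.primeFactors, q = m :=
  Nat.prod_primeFactors_of_squarefree h.1

theorem all_inert {m : ℕ} (h : InertProduct m) :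
    ∀ q ∈ m.primeFactors, Pool.Agent.Y687.Inert q := fun q hq =>
  h.2 q (Nat.prime_of_mem_primeFactors hq) (Nat.dvd_of_mem_primeFactors hq)

theorem m_ne {m : ℕ} (h : InertProduct m) : m ≠ 0 := h.1.ne_zero

theorem notMem_iff {m q : ℕ} (h : InertProduct m) (hq : Inert q) : q ∉ m.primeFactors ↔ ¬ q ∣ m := by
  rw [Nat.mem_primeFactors]
  constructor
  · exact fun h1 h2 => h1 ⟨hq.1, h2, m_ne h⟩
  · exact fun h1 h2 => h1 h2.2.1

theorem symb_self {p : ℕ} : symb p p = 0 := by
  unfold symb
  rw [ZMod.natCast_self, if_pos (IsSquare.zero)]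

theorem z2 (x : ZMod 2) : x = 0 ∨ x = 1 := by
  fin_cases x
  · exact Or.inl rfl
  · exact Or.inr rfl

theorem g_ne {m p : ℕ} : g m p = 1 ↔ ¬ 8 ∣ points m p := by
  unfold g
  split_ifs with h <;> simp [h]

theorem symb_comm {p₁ p₂ : ℕ} (h1 : Split p₁) (h2 : Split p₂) : symb p₁ p₂ = symb p₂ p₁ := by
  haveI : Fact p₁.Prime := ⟨h1.1⟩
  haveI : Fact p₂.Prime := ⟨h2.1⟩
  unfold symb
  have h := ZMod.exists_sq_eq_prime_iff_of_mod_four_eq_one (p := p₁) (q := p₂)
    (by have := h1.2.1; omega) (by have := h2.2.1; omega)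
  by_cases h3 : IsSquare (p₁ : ZMod p₂)
  · rw [if_pos h3, if_pos (h.2 h3)]
  · rw [if_neg h3, if_neg fun h4 => h3 (h.1 h4)]

theorem det1 {m : ℕ} (p : Fin 1 → ℕ) : Good m p ↔ ¬ 8 ∣ points m (p 0) := by
  unfold Good lap
  rw [Matrix.det_fin_one]
  simp only [Matrix.add_apply, Matrix.of_apply, if_true, Matrix.diagonal_apply_eq,
    Finset.univ_unique, Fin.default_eq_zero, Fin.isValue, Finset.sum_singleton, symb_self, zero_add]
  rw [← g_ne]
  rcases z2 (g m (p 0)) with h | h <;> rw [h] <;> decide

theorem detG {p : Fin 2 → ℕ} (h1 : Split (p 0)) (h2 : Split (p 1)) (u : Fin 2 → ZMod 2) :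
    (lap p + Matrix.diagonal u).det =
      u 0 * u 1 + symb (p 0) (p 1) * (u 0 + u 1) := by
  unfold lap
  rw [Matrix.det_fin_two]
  simp only [Matrix.add_apply, Matrix.of_apply, if_true, Matrix.diagonal_apply_eq,
    Fin.isValue, Fin.sum_univ_two, symb_self, zero_add, add_zero]
  rw [if_neg (by decide), if_neg (by decide), Matrix.diagonal_apply_ne _ (by decide),
    Matrix.diagonal_apply_ne _ (by decide), symb_comm h2 h1]
  generalize symb (p 0) (p 1) = s
  generalize u 0 = a
  generalize u 1 = b
  revert s a b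
  decide

theorem det2 {m : ℕ} {p : Fin 2 → ℕ} (h1 : Split (p 0)) (h2 : Split (p 1)) :
    Good m p ↔ (¬ 8 ∣ points m (p 0) ∧ ¬ 8 ∣ points m (p 1)) ∨
      (¬ IsSquare (p 0 : ZMod (p 1)) ∧ (¬ 8 ∣ points m (p 0) ∨ ¬ 8 ∣ points m (p 1))) := by
  unfold Good
  rw [detG h1 h2, ← g_ne, ← g_ne]
  have e : ¬ IsSquare (p 0 : ZMod (p 1)) ↔ symb (p 0) (p 1) = 1 := by
    unfold symb
    split_ifs with h <;> simp [h]
  rw [e]
  generalize symb (p 0) (p 1) = s
  generalize g m (p 0) = a
  generalize g m (p 1) = b
  revert s a b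
  decide

/-- **The rank form for the twists of `X_0(14)` with one or two split primes.** -/
theorem result (k : ℕ) (hk : k = 1 ∨ k = 2) (p : Fin k → ℕ) (hinj : Function.Injective p)
    (hp : ∀ i, Split (p i)) (m : ℕ) (hm : InertProduct m) :
    (Good m p → RankFormZero (A ((∏ i, p i) * m)) (B ((∏ i, p i) * m))) ∧
    Tendsto (fun X : ℕ =>
      (((Finset.Icc 1 X).filter fun q => Inert q ∧ ¬ q ∣ m ∧ Good (q * m) p).card : ℝ) /
      (((Finset.Icc 1 X).filter fun q => Inert q).card : ℝ)) atTop
      (𝓝 ((Nat.card {u : Fin k → ZMod 2 // (lap p + Matrix.diagonal u).det ≠ 0} : ℝ) / 2 ^ k)) := by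
  rcases hk with rfl | rfl
  · have e1 : ∏ i, p i = p 0 := by simp
    have hc : Nat.card {u : Fin 1 → ZMod 2 // (lap p + Matrix.diagonal u).det ≠ 0} = 1 := by
      have : ∀ u : Fin 1 → ZMod 2, (lap p + Matrix.diagonal u).det ≠ 0 ↔ u = fun _ => 1 := by
        intro u
        unfold lap
        rw [Matrix.det_fin_one]
        simp only [Matrix.add_apply, Matrix.of_apply, if_true, Matrix.diagonal_apply_eq,
          Finset.univ_unique, Fin.default_eq_zero, Fin.isValue, Finset.sum_singleton, symb_self,
          zero_add]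
        constructor
        · intro h
          funext i
          fin_cases i
          exact (z2 (u 0)).resolve_left h
        · rintro rfl
          decide
      rw [Nat.card_congr (Equiv.subtypeEquivRight this)]
      simp
    refine ⟨?_, ?_⟩
    · intro hg
      rw [e1]
      refine rankForm (Nat.mul_ne_zero (hp 0).1.ne_zero (m_ne hm)) ?_
      have h := Pool.Agent.Y687.main (p := p 0) (S := m.primeFactors) (hp 0) (all_inert hm)
      rw [prod_eq hm] at h
      exact h ((det1 p).1 hg)
    · rw [hc, Nat.cast_one, pow_one]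
      refine Pool.Agent.U115.X14.density1 (p := p 0) (S := m.primeFactors) (hp 0) (all_inert hm)
        _ _ ?_ fun q => Iff.rfl
      intro q
      rw [det1]
      constructor
      · rintro ⟨h1, h2, h3⟩
        have h4 := (notMem_iff hm h1).2 h2
        refine ⟨h1, h4, ?_⟩
        rw [Finset.prod_insert h4, prod_eq hm]
        exact h3
      · rintro ⟨h1, h2, h3⟩
        refine ⟨h1, (notMem_iff hm h1).1 h2, ?_⟩
        rw [Finset.prod_insert h2, prod_eq hm] at h3
        exact h3
  · have e1 : ∏ i, p i = p 0 * p 1 := by rw [Fin.prod_univ_two]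
    have hne : p 0 ≠ p 1 := fun h => absurd (hinj h) (by decide)
    refine ⟨?_, ?_⟩
    · intro hg
      rw [e1]
      refine rankForm (Nat.mul_ne_zero (Nat.mul_ne_zero (hp 0).1.ne_zero (hp 1).1.ne_zero)
        (m_ne hm)) ?_
      have h := Pool.Agent.Y687.main2 (S := m.primeFactors) hne (hp 0) (hp 1) (all_inert hm)
      rw [prod_eq hm] at h
      exact h ((det2 (hp 0) (hp 1)).1 hg)
    · refine Pool.Agent.U115.X14.density2 (S := m.primeFactors) hne (hp 0) (hp 1) (all_inert hm)
        _ _ ?_ (fun q => Iff.rfl) _ ?_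
      · intro q
        rw [det2 (hp 0) (hp 1)]
        constructor
        · rintro ⟨h1, h2, h3⟩
          have h4 := (notMem_iff hm h1).2 h2
          refine ⟨h1, h4, ?_⟩
          rw [Finset.prod_insert h4, prod_eq hm]
          exact h3
        · rintro ⟨h1, h2, h3⟩
          refine ⟨h1, (notMem_iff hm h1).1 h2, ?_⟩
          rw [Finset.prod_insert h2, prod_eq hm] at h3
          exact h3
      · have key : ∀ s : ZMod 2, Nat.card {u : Fin 2 → ZMod 2 // u 0 * u 1 + s * (u 0 + u 1) ≠ 0} =
            if s = 0 then 1 else 3 := by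
          intro s
          rw [Nat.card_eq_fintype_card, Fintype.card_subtype]
          revert s
          decide
        have e2 : Nat.card {u : Fin 2 → ZMod 2 // (lap p + Matrix.diagonal u).det ≠ 0} =
            if symb (p 0) (p 1) = 0 then 1 else 3 := by
          rw [← key]
          refine Nat.card_congr (Equiv.subtypeEquivRight fun u => ?_)
          rw [detG (hp 0) (hp 1)]
        rw [e2]
        by_cases h : IsSquare (p 0 : ZMod (p 1))
        · refine Or.inl ⟨h, ?_⟩
          unfold symb
          rw [if_pos h, if_pos rfl]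
          norm_num
        · refine Or.inr ⟨h, ?_⟩
          unfold symb
          rw [if_neg h, if_neg (by decide)]
          norm_num

end Pool.Agent.Results.MP_696deb_nt.SplitPrimesX14
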