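import Pool.Agent.R413.SQ.Cor
import Pool.Agent.U80.WQ.JLaw

/-!
# The rank form, at the same time, for the fibres of the surfaces `M (t² + 1) y² = x³ - 35 x - 98`

Let `M` be a squarefree product of primes `≡ 1 mod 4` and `t = a / b ∈ ℚ` (in lowest terms) such that
`height t = a² + b²` is odd and squarefree. The fibre at `t` of the elliptic surface
`M (t² + 1) y² = x³ - 35 x - 98` is the quadratic twist `E_D : y² = x³ - 35 D² x - 98 D³` of the curve
`X_0(49)`, where `D = tw M (height t)` is the squarefree part of `M (a² + b²)`. The numbers `a² + b²` have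
density zero among the integers; here the `t` are counted, ordered by height.

* If `E_D(ℚ)` is finite and `Ш(E_D)[2] = 0`, then the rank form holds for `E_D`: order `= 0 =` rank.
* Let `T` be a finite set of the `M` and `V ⊆ T`. For exactly the proportion `c ^ |V| (1 - c) ^ |T \ V|` of
  the `t`, `c = ∏_{i ≥ 0} (1 - 2^{-(2i+1)}) = 0.4194...`, `V` is the set of the `M ∈ T` for which the fibre at `t`
  has finitely many rational points and `Ш[2] = 0`: these events are independent.
* For every finite set `T` of the `M`, a positive proportion of ALL rational numbers `t`, ordered by `a² + b²`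
  or by the usual height `max (|a|, |b|)`, have odd squarefree `a² + b²` and satisfy the rank form, with order
  and rank `0`, for all the fibres at `t`, `M ∈ T`.

The count with the weights `2 ^ ω(D)` is in `Pool/Agent/U80/WQ`; it is the weighted form of the count of the
`D` in `Pool/Agent/R413/SQ` and `R413/SM` (after the projects CQ and JQ of the starting files), with another
sieve, another bound for the large values and a lower bound from a count of squarefree values of the form. The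
criterion and the rank form for a single `D` are those of the starting files (`Pool/Agent/R413/SQ/Cor.lean`).
-/

set_option autoImplicit false

open scoped Classical

open WeierstrassCurve

namespace Pool.Agent.Results.MP_696deb_nt.SumsOfTwoSquares

open Pool.Agent.TH841.NF.D (Sha)

/-- the height `a² + b²` of the rational number `t = a / b` in lowest terms -/
def height (t : ℚ) : ℕ := t.num.natAbs ^ 2 + t.den ^ 2

/-- the squarefree part of `M D`, for squarefree `M` and `D` -/
def tw (M D : ℕ) : ℕ := M * D / Nat.gcd M D ^ 2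

/-- the coefficient of `x` -/
def A (D : ℕ) : ℤ := -35 * (D : ℤ) ^ 2

/-- the constant coefficient -/
def B (D : ℕ) : ℤ := -98 * (D : ℤ) ^ 3

/-- the twist `y² = x³ - 35 D² x - 98 D³` of `X_0(49)` -/
def twist (D : ℕ) : WeierstrassCurve ℚ :=
  { a₁ := 0, a₂ := 0, a₃ := 0, a₄ := (A D : ℚ), a₆ := (B D : ℚ) }

/-- the conclusion of the frozen statement for `y² = x³ + a x + b`, together with the fact that the
order of vanishing and the rank are both `0` -/
def BSDRankZero (a b : ℤ) : Prop :=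
  4 * a ^ 3 + 27 * b ^ 2 ≠ 0 ∧
    ∃ F : ℂ → ℂ, Differentiable ℂ F ∧
      (∀ s : ℂ, (3 : ℝ) / 2 < s.re →
        HasProd
          (fun p : ℕ => open Classical in
            if p.Prime ∧ ¬ ((p : ℤ) ∣ 2 * (-4 * a ^ 3 - 27 * b ^ 2)) then
              (1 - ((p : ℂ) - (Nat.card {q : ZMod p × ZMod p //
                  q.2 ^ 2 = q.1 ^ 3 + (a : ZMod p) * q.1 + (b : ZMod p)} : ℂ))
                  * (p : ℂ) ^ (-s) + (p : ℂ) ^ (1 - 2 * s))⁻¹
            else 1)
          (F s)) ∧
      analyticOrderAt F 1 =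
        ((Module.finrank ℤ
          (WeierstrassCurve.Affine.Point
            (WeierstrassCurve.toAffine
              ({ a₁ := 0, a₂ := 0, a₃ := 0, a₄ := (a : ℚ), a₆ := (b : ℚ) } :
                WeierstrassCurve ℚ))) : ℕ) : ℕ∞) ∧
      Module.finrank ℤ
        (WeierstrassCurve.Affine.Point
          (WeierstrassCurve.toAffine
            ({ a₁ := 0, a₂ := 0, a₃ := 0, a₄ := (a : ℚ), a₆ := (b : ℚ) } :
              WeierstrassCurve ℚ))) = 0

/-- `E_D(ℚ)` is finite and `Ш(E_D/ℚ)` has no element of order two -/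
def TrivialTwo (D : ℕ) : Prop :=
  Finite (twist D).toAffine.Point ∧ ∀ x : Sha (twist D), 2 • x = 0 → x = 0

/-- the class of the `M`: squarefree products of primes `≡ 1 mod 4` -/
def Class (M : ℕ) : Prop := Squarefree M ∧ ∀ p ∈ M.primeFactors, p % 4 = 1

/-- the rational numbers `t` of height at most `X`, the height being odd and squarefree, with the
property `P` -/
def Params (P : ℚ → Prop) (X : ℕ) : Set ℚ :=
  {t | height t ≤ X ∧ Odd (height t) ∧ Squarefree (height t) ∧ P t}

/-- `V` is the set of the `M ∈ T` for which the fibre at `t` has finitely many points and `Ш[2] = 0` -/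
def Pattern (T V : Finset ℕ) (t : ℚ) : Prop := ∀ M ∈ T, (TrivialTwo (tw M (height t)) ↔ M ∈ V)

/-- the rank form with order and rank `0` for the fibres at `t` of all the surfaces, `M ∈ T` -/
def AllRankZero (T : Finset ℕ) (t : ℚ) : Prop :=
  ∀ M ∈ T, BSDRankZero (A (tw M (height t))) (B (tw M (height t)))

/-- the constant `0.4194...` -/
noncomputable def cc : ℝ := ∏' i : ℕ, (1 - (1 / 2 : ℝ) ^ (2 * i + 1))

section proof

open Pool.Agent.R413.SQ
open Pool.Agent.Results.MP_4a9ea6_nt.TwoPartTwistsX49 (Adm mat)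
open Pool.Agent.U80.WQ (ht TS Pt)

theorem adm_of {t : ℚ} (h1 : Odd (height t)) (h2 : Squarefree (height t)) : Adm (height t) :=
  ⟨h2, fun p hp => (Pool.Agent.U80.WQ.ht_cl h2 h1 p hp).2⟩

theorem height_pos (t : ℚ) : 0 < height t := by
  have := t.den_pos
  unfold height
  positivity

theorem disc_ne {D : ℕ} (hD : D ≠ 0) : 4 * (A D) ^ 3 + 27 * (B D) ^ 2 ≠ 0 := by
  have h : (D : ℤ) ≠ 0 := by exact_mod_cast hD
  have e : 4 * (A D) ^ 3 + 27 * (B D) ^ 2 = 87808 * (D : ℤ) ^ 6 := by
    unfold A B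
    ring
  rw [e]
  positivity

theorem rank_of {D : ℕ} (hA : Adm D) (h3 : TrivialTwo D) : BSDRankZero (A D) (B D) := by
  obtain ⟨F, g1, g2, g3, g4⟩ := Cor.rank_bsd hA ((Cor.crit hA).1 h3)
  refine ⟨disc_ne hA.1.ne_zero, F, g1, g2, ?_, g4⟩
  rw [g3]
  show (0 : ℕ∞) = ((Module.finrank ℤ (WeierstrassCurve.Affine.Point (WeierstrassCurve.toAffine
    ({ a₁ := 0, a₂ := 0, a₃ := 0, a₄ := (Cor.a D : ℚ), a₆ := (Cor.b D : ℚ) } :
      WeierstrassCurve ℚ))) : ℕ) : ℕ∞)
  rw [g4]
  rfl

theorem par_pat {T V : Finset ℕ} (hT : ∀ M ∈ T, Adm M) (X : ℕ) : Params (Pattern T V) X =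
    TS X fun D => Pt T V D.primeFactors := by
  ext t
  have key : Odd (height t) → Squarefree (height t) →
      (Pattern T V t ↔ Pt T V (height t).primeFactors) := by
    intro h1 h2
    have hA := adm_of h1 h2
    rw [← Pool.Agent.U80.WQ.pt_iff hT hA]
    refine forall₂_congr fun M hM => ?_
    rw [← Cor.crit (Joint.adm_tw (hT M hM) hA)]
    rfl
  constructor
  · rintro ⟨h1, h2, h3, h4⟩
    exact ⟨h1, h2, h3, (key h2 h3).1 h4⟩
  · rintro ⟨h1, h2, h3, h4⟩
    exact ⟨h1, h2, h3, (key h2 h3).2 h4⟩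

theorem par_all (X : ℕ) : Params (fun _ => True) X = TS X fun _ => True := rfl

theorem fib_eq {M : ℕ} {t : ℚ} (hM : Adm M) (hA : Adm (height t)) (x y : ℚ) :
    M * (t ^ 2 + 1) * y ^ 2 = x ^ 3 - 35 * x - 98 ↔
      (twist (tw M (height t))).toAffine.Equation (tw M (height t) * x)
        ((tw M (height t) : ℚ) ^ 2 * Nat.gcd M (height t) / t.den * y) := by
  rw [Affine.equation_iff]
  have hb : (t.den : ℚ) ≠ 0 := by exact_mod_cast t.den_pos.ne'
  have hH : (height t : ℚ) = (t.den : ℚ) ^ 2 * (t ^ 2 + 1) := by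
    have h1 : ((height t : ℕ) : ℤ) = t.num ^ 2 + (t.den : ℤ) ^ 2 := Pool.Agent.U80.WQ.ht_int t
    have h2 : ((height t : ℕ) : ℚ) = (t.num : ℚ) ^ 2 + (t.den : ℚ) ^ 2 := by exact_mod_cast h1
    have h3 : (t.num : ℚ) = t * t.den := by
      rw [Rat.mul_den_eq_num]
    rw [h2, h3]
    ring
  have hD := (Joint.ac_tw hM hA).2
  have hD' : (M : ℚ) * (height t : ℚ) = (tw M (height t) : ℚ) * (Nat.gcd M (height t) : ℚ) ^ 2 := by
    exact_mod_cast hD
  have hD0 : (tw M (height t) : ℚ) ≠ 0 := by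
    intro h0
    rw [h0, zero_mul] at hD'
    have h1 : (M : ℚ) ≠ 0 := by exact_mod_cast hM.1.ne_zero
    have h2 : (height t : ℚ) ≠ 0 := by exact_mod_cast (height_pos t).ne'
    exact mul_ne_zero h1 h2 hD'
  set D : ℚ := (tw M (height t) : ℚ) with hDd
  set g : ℚ := (Nat.gcd M (height t) : ℚ) with hg
  have e1 : (D ^ 2 * g / t.den * y) ^ 2 = D ^ 3 * (M * (t ^ 2 + 1) * y ^ 2) := by
    have h1 : (M : ℚ) * (t ^ 2 + 1) = D * g ^ 2 / (t.den : ℚ) ^ 2 := by
      rw [eq_div_iff (pow_ne_zero 2 hb), ← hD', hH]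
      ring
    rw [h1]
    field_simp
  simp only [twist, A, B]
  push_cast
  rw [← hDd]
  constructor
  · intro h
    have := e1
    rw [h] at this
    linear_combination this
  · intro h
    have h4 : D ^ 3 * (M * (t ^ 2 + 1) * y ^ 2) = D ^ 3 * (x ^ 3 - 35 * x - 98) := by
      rw [← e1]
      linear_combination h
    exact mul_left_cancel₀ (pow_ne_zero 3 hD0) h4

theorem pos_all {T : Finset ℕ} (hT : ∀ M ∈ T, Adm M) :
    ∃ (c : ℝ) (X₀ : ℕ), 0 < c ∧ ∀ X : ℕ, X₀ ≤ X →
      c * X ≤ ((Params (AllRankZero T) X).ncard : ℝ) := by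
  obtain ⟨c, X₀, hc0, h⟩ := Pool.Agent.U80.WQ.joint_count hT (Finset.Subset.refl T)
  refine ⟨c, X₀, hc0, fun X hX => ?_⟩
  have h1 := h X hX
  rw [← par_pat hT] at h1
  have h3 : (Params (Pattern T T) X).ncard ≤ (Params (AllRankZero T) X).ncard := by
    refine Set.ncard_le_ncard (fun t ht => ⟨ht.1, ht.2.1, ht.2.2.1, fun M hM => ?_⟩)
      ((Pool.Agent.U80.WQ.finite_ht X).subset fun t ht => ht.1)
    exact rank_of (Joint.adm_tw (hT M hM) (adm_of ht.2.1 ht.2.2.1)) ((ht.2.2.2 M hM).2 hM)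
  exact h1.trans (by exact_mod_cast h3)

theorem box_fin (N : ℕ) : {t : ℚ | max t.num.natAbs t.den ≤ N}.Finite := by
  refine (Pool.Agent.U80.WQ.finite_ht (2 * N ^ 2)).subset fun t ht => ?_
  have h1 : max t.num.natAbs t.den ≤ N := ht
  have h2 : t.num.natAbs ≤ N := (le_max_left _ _).trans h1
  have h3 : t.den ≤ N := (le_max_right _ _).trans h1
  have h4 := Nat.pow_le_pow_left h2 2
  have h5 := Nat.pow_le_pow_left h3 2
  show t.num.natAbs ^ 2 + t.den ^ 2 ≤ 2 * N ^ 2
  omega

theorem box_card {N : ℕ} (hN : 1 ≤ N) : ({t : ℚ | max t.num.natAbs t.den ≤ N}.ncard : ℝ) ≤ 6 * N ^ 2 := by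
  have h1 : {t : ℚ | max t.num.natAbs t.den ≤ N} ⊆ {t : ℚ | ht t ≤ 2 * N ^ 2} := by
    intro t ht'
    have h1 : max t.num.natAbs t.den ≤ N := ht'
    have h2 : t.num.natAbs ≤ N := (le_max_left _ _).trans h1
    have h3 : t.den ≤ N := (le_max_right _ _).trans h1
    have h4 := Nat.pow_le_pow_left h2 2
    have h5 := Nat.pow_le_pow_left h3 2
    show t.num.natAbs ^ 2 + t.den ^ 2 ≤ 2 * N ^ 2
    omega
  have h2 := Set.ncard_le_ncard h1 (Pool.Agent.U80.WQ.finite_ht (2 * N ^ 2))
  have h3 := Pool.Agent.U80.WQ.total_t (2 * N ^ 2)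
  have h4 : ({t : ℚ | max t.num.natAbs t.den ≤ N}.ncard : ℝ) ≤
      ({t : ℚ | ht t ≤ 2 * N ^ 2}.ncard : ℝ) := by exact_mod_cast h2
  push_cast at h3
  linarith

end proof

theorem result :
    (∀ (M : ℕ) (t : ℚ), Class M → Odd (height t) → Squarefree (height t) →
      Class (tw M (height t)) ∧ M * height t = tw M (height t) * Nat.gcd M (height t) ^ 2 ∧
      (∀ x y : ℚ, M * (t ^ 2 + 1) * y ^ 2 = x ^ 3 - 35 * x - 98 ↔
        (twist (tw M (height t))).toAffine.Equation (tw M (height t) * x)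
          ((tw M (height t) : ℚ) ^ 2 * Nat.gcd M (height t) / t.den * y)) ∧
      (TrivialTwo (tw M (height t)) →
        BSDRankZero (A (tw M (height t))) (B (tw M (height t))))) ∧
    (∀ T V : Finset ℕ, (∀ M ∈ T, Class M) → V ⊆ T →
      Filter.Tendsto (fun X : ℕ => ((Params (Pattern T V) X).ncard : ℝ) /
        ((Params (fun _ => True) X).ncard : ℝ)) Filter.atTop
        (nhds (cc ^ V.card * (1 - cc) ^ (T \ V).card))) ∧
    0.4194 < cc ∧ cc < 0.4195 ∧
    (∀ T : Finset ℕ, (∀ M ∈ T, Class M) → ∃ (c : ℝ) (X₀ : ℕ), 0 < c ∧ ∀ X : ℕ, X₀ ≤ X →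
      c * ({t : ℚ | height t ≤ X}.ncard : ℝ) ≤ ((Params (AllRankZero T) X).ncard : ℝ) ∧
      c * ({t : ℚ | max t.num.natAbs t.den ≤ X}.ncard : ℝ) ≤
        ({t : ℚ | max t.num.natAbs t.den ≤ X ∧ Odd (height t) ∧ Squarefree (height t) ∧
          AllRankZero T t}.ncard : ℝ)) := by
  have hc := Pool.Agent.Y948.CQ.t_C2.2.2.2
  refine ⟨fun M t hM h1 h2 => ?_, fun T V hT hV => ?_, hc.1, hc.2, fun T hT => ?_⟩
  · have hA := adm_of h1 h2
    have hD := Pool.Agent.R413.SQ.Joint.adm_tw hM hA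
    exact ⟨hD, (Pool.Agent.R413.SQ.Joint.ac_tw hM hA).2, fib_eq hM hA, rank_of hD⟩
  · have h := Pool.Agent.U80.WQ.joint_t hT hV
    simp only [par_pat hT, par_all]
    exact h
  · obtain ⟨c, X₀, hc0, h⟩ := pos_all hT
    refine ⟨c / 6, X₀ + 1, by positivity, fun X hX => ⟨?_, ?_⟩⟩
    · have h1 := h X (by omega)
      have h2 : ({t : ℚ | height t ≤ X}.ncard : ℝ) ≤ 3 * X := Pool.Agent.U80.WQ.total_t X
      refine le_trans ?_ h1
      have h3 : (0 : ℝ) ≤ X := Nat.cast_nonneg X
      calc c / 6 * ({t : ℚ | height t ≤ X}.ncard : ℝ) ≤ c / 6 * (3 * X) :=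
            mul_le_mul_of_nonneg_left h2 (by positivity)
        _ ≤ c * X := by nlinarith
    · have hX1 : X ≤ X ^ 2 := Nat.le_self_pow (by norm_num) X
      have h1 := h (X ^ 2) (by omega)
      have h2 : ({t : ℚ | max t.num.natAbs t.den ≤ X}.ncard : ℝ) ≤ 6 * X ^ 2 :=
        box_card (by omega)
      have h3 : Params (AllRankZero T) (X ^ 2) ⊆
          {t : ℚ | max t.num.natAbs t.den ≤ X ∧ Odd (height t) ∧ Squarefree (height t) ∧
            AllRankZero T t} := by
        rintro t ⟨h4, h5⟩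
        refine ⟨?_, h5⟩
        have h6 : t.num.natAbs ^ 2 + t.den ^ 2 ≤ X ^ 2 := h4
        refine max_le ?_ ?_
        · exact (Nat.pow_le_pow_iff_left (by norm_num : (2 : ℕ) ≠ 0)).1 (by omega)
        · exact (Nat.pow_le_pow_iff_left (by norm_num : (2 : ℕ) ≠ 0)).1 (by omega)
      have h4 := Set.ncard_le_ncard h3 ((box_fin X).subset fun t ht => ht.1)
      have h5 : ((Params (AllRankZero T) (X ^ 2)).ncard : ℝ) ≤
          ({t : ℚ | max t.num.natAbs t.den ≤ X ∧ Odd (height t) ∧ Squarefree (height t) ∧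
            AllRankZero T t}.ncard : ℝ) := by
        exact_mod_cast h4
      push_cast at h1
      refine le_trans ?_ (h1.trans h5)
      calc c / 6 * ({t : ℚ | max t.num.natAbs t.den ≤ X}.ncard : ℝ) ≤ c / 6 * (6 * X ^ 2) :=
            mul_le_mul_of_nonneg_left h2 (by positivity)
        _ = c * X ^ 2 := by ring

end Pool.Agent.Results.MP_696deb_nt.SumsOfTwoSquares
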